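import Pool.Agent.helper21.OE.SpecB

set_option autoImplicit false

namespace Pool.Agent.OE

open MvPolynomial Matrix

/-- the exponent -/
noncomputable def EXQ_D (j a b : ℕ) : Fin 4 →₀ ℕ := Finsupp.equivFunOnFinite.symm ![a, j - a, b, j - b]

theorem EXQ_mon {A : Type} [CommRing A] (j a b : ℕ) : (mon j a b : Pol A) = monomial (EXQ_D j a b) 1 := by
  have h1 : EXQ_D j a b = Finsupp.single 0 a + Finsupp.single 1 (j - a) + Finsupp.single 2 b + Finsupp.single 3 (j - b) := by
    ext i
    fin_cases i <;> simp [EXQ_D]
  unfold mon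
  rw [h1, X_pow_eq_monomial, X_pow_eq_monomial, X_pow_eq_monomial, X_pow_eq_monomial, monomial_mul, monomial_mul, monomial_mul]
  simp

theorem EXQ_D_inj (j a b s t : ℕ) : EXQ_D j s t = EXQ_D j a b ↔ s = a ∧ t = b := by
  constructor
  · intro h
    have h0 := DFunLike.congr_fun h 0
    have h2 := DFunLike.congr_fun h 2
    exact ⟨h0, h2⟩
  · rintro ⟨rfl, rfl⟩
    rfl

theorem EXQ_bi {A : Type} [CommRing A] (j : ℕ) (P : Pol A) (h : BiHom j P) (d : Fin 4 →₀ ℕ) (hd : coeff d P ≠ 0) :
    d 0 + d 1 = j ∧ d 2 + d 3 = j := by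
  have h1 := h.1 hd
  have h2 := h.2 hd
  rw [Finsupp.weight_apply, Finsupp.sum_fintype d _ (fun i => by simp), Fin.sum_univ_four] at h1 h2
  simp at h1 h2
  exact ⟨h1, h2⟩

theorem EXQ : EXQ_stmt := by
  classical
  intro A _ j
  constructor
  · intro P hP
    ext d
    rw [coeff_sum]
    have h1 : ∀ a ∈ Finset.range (j + 1), coeff d (∑ b ∈ Finset.range (j + 1), C (cf P j a b) * mon j a b) =
        ∑ b ∈ Finset.range (j + 1), if EXQ_D j a b = d then cf P j a b else 0 := by
      intro a _
      rw [coeff_sum]
      refine Finset.sum_congr rfl fun b _ => ?_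
      rw [EXQ_mon, coeff_C_mul, coeff_monomial]
      split_ifs <;> simp
    rw [Finset.sum_congr rfl h1]
    by_cases hd : coeff d P = 0
    · rw [hd]
      symm
      refine Finset.sum_eq_zero fun a _ => Finset.sum_eq_zero fun b _ => ?_
      split_ifs with h
      · have : cf P j a b = coeff d P := by
          rw [← h]
          rfl
        rw [this, hd]
      · rfl
    · obtain ⟨h2, h3⟩ := EXQ_bi j P hP d hd
      have hD : EXQ_D j (d 0) (d 2) = d := by
        ext i
        fin_cases i
        · rfl
        · show j - d 0 = d 1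
          omega
        · rfl
        · show j - d 2 = d 3
          omega
      rw [Finset.sum_eq_single (d 0)]
      · rw [Finset.sum_eq_single (d 2)]
        · rw [if_pos hD]
          show coeff d P = coeff (EXQ_D j (d 0) (d 2)) P
          rw [hD]
        · intro b _ hb
          rw [if_neg]
          intro h
          exact hb (((EXQ_D_inj j _ _ _ _).1 (h.trans hD.symm)).2)
        · intro h
          exact absurd (Finset.mem_range.2 (by omega)) h
      · intro a _ ha
        refine Finset.sum_eq_zero fun b _ => ?_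
        rw [if_neg]
        intro h
        exact ha (((EXQ_D_inj j _ _ _ _).1 (h.trans hD.symm)).1)
      · intro h
        exact absurd (Finset.mem_range.2 (by omega)) h
  · intro s t a b _ _ _ _
    show coeff (EXQ_D j a b) (mon j s t : Pol A) = _
    rw [EXQ_mon, coeff_monomial]
    by_cases h : s = a ∧ t = b
    · rw [if_pos h, if_pos ((EXQ_D_inj j _ _ _ _).2 h)]
    · rw [if_neg h, if_neg (fun h' => h ((EXQ_D_inj j _ _ _ _).1 h'))]

end Pool.Agent.OE
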